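import Pool.Agent.helper67.DL.SpecG

set_option autoImplicit false

namespace Pool.Agent.DL

open Matrix Complex
open scoped ComplexOrder Manifold ContDiff

section
variable {X : Type} [TopologicalSpace X] [ChartedSpace ℂ X]

theorem BA_quo (C : Cov X) (hC : C.Valid) (q : Fam X) (m : ℕ) (i j : C.ι) (x : X)
    (hi : x ∈ C.U i) (hj : x ∈ C.U j) :
    quo q (C.η i) m x = C.rat i j x ^ m * quo q (C.η j) m x := by
  have h1 := hC.2.2.2 i x hi
  have h2 := hC.2.2.2 j x hj
  unfold Cov.rat quo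
  rw [pow_one, div_pow]
  field_simp

theorem BA_const (c : ℂ) (U : Set X) : HoloOn (fun _ : X => c) U := fun _ _ =>
  differentiableOn_const _

theorem BA_mono (f : X → ℂ) (U V : Set X) (h : HoloOn f U) (hV : V ⊆ U) : HoloOn f V :=
  fun e he => (h e he).mono fun _ hz => ⟨hz.1, hV hz.2⟩

theorem BA_cmul (c : ℂ) (f : X → ℂ) (U : Set X) (h : HoloOn f U) : HoloOn (fun x => c * f x) U :=
  fun e he => (h e he).const_mul c

theorem BA_holoq (hGA : GA_stmt) (C : Cov X) (hC : C.Valid) (q : Fam X) (m : ℕ)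
    (hq : IsDif Set.univ m q) (i : C.ι) : HoloOn (quo q (C.η i) m) (C.U i) := by
  have h := ((hGA X (C.U i) (C.η i) (hC.2.2.1 i) (hC.2.2.2 i)).2.2 m q Set.univ (hC.1 i)
    isOpen_univ hq).1
  rwa [Set.inter_univ] at h

theorem BA_mat3 (u v S0 S1 Q0 Q1 : ℂ) (h : u * v = 1) (hS : S0 = u ^ 2 * S1)
    (hQ : Q0 = (u ^ 2) ^ 2 * Q1) :
    !![S0, Q0, 0; 1, S0, 0; 0, 0, -2 * S0] * diagonal ![u, v, 1] =
      u ^ 2 • (diagonal ![u, v, 1] * !![S1, Q1, 0; 1, S1, 0; 0, 0, -2 * S1]) := by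
  subst hS hQ
  ext a b
  fin_cases a <;> fin_cases b <;>
    simp [Matrix.mul_apply, Fin.sum_univ_three, Matrix.diagonal, Matrix.smul_apply]
  · ring
  · linear_combination (u ^ 3 * Q1) * h
  · linear_combination (-u) * h
  · ring
  · ring

theorem BA_mat2 (u v S0 S1 Q0 Q1 : ℂ) (h : u * v = 1) (hS : S0 = u ^ 2 * S1)
    (hQ : Q0 = (u ^ 2) ^ 2 * Q1) :
    !![S0, Q0; 1, S0] * diagonal ![u, v] =
      u ^ 2 • (diagonal ![u, v] * !![S1, Q1; 1, S1]) := by
  subst hS hQ
  ext a b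
  fin_cases a <;> fin_cases b <;>
    simp [Matrix.mul_apply, Fin.sum_univ_two, Matrix.diagonal, Matrix.smul_apply]
  · ring
  · linear_combination (u ^ 3 * Q1) * h
  · linear_combination (-u) * h
  · ring

theorem BA_dd3 (u v : ℂ) (h : u * v = 1) :
    (diagonal ![u, v, 1] : Matrix (Fin 3) (Fin 3) ℂ) * diagonal ![v, u, 1] = 1 := by
  rw [Matrix.diagonal_mul_diagonal, ← Matrix.diagonal_one]
  congr 1
  funext i
  fin_cases i <;> simp [h, mul_comm v u]

theorem BA_dd2 (u v : ℂ) (h : u * v = 1) :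
    (diagonal ![u, v] : Matrix (Fin 2) (Fin 2) ℂ) * diagonal ![v, u] = 1 := by
  rw [Matrix.diagonal_mul_diagonal, ← Matrix.diagonal_one]
  congr 1
  funext i
  fin_cases i <;> simp [h, mul_comm v u]

theorem BA_mo (c : ℂ) (hc : c ≠ 0) (z : ℂ) :
    MeromorphicAt (fun _ : ℂ => c) z ∧ meromorphicOrderAt (fun _ : ℂ => c) z ≠ ⊤ ∧
      (meromorphicOrderAt (fun _ : ℂ => c) z).untop₀ = 0 := by
  have h : meromorphicOrderAt (fun _ : ℂ => c) z = 0 := by
    rw [(analyticAt_const (v := c) (x := z)).meromorphicOrderAt_eq]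
    have h2 : analyticOrderAt (fun _ : ℂ => c) z = 0 :=
      (analyticAt_const (v := c) (x := z)).analyticOrderAt_eq_zero.mpr hc
    rw [h2]
    rfl
  refine ⟨MeromorphicAt.const c z, ?_, ?_⟩
  · rw [h]; exact WithTop.zero_ne_top
  · rw [h]; rfl

theorem BA_deg {n : ℕ} (B : Higgs X n) (hC : B.C.Valid)
    (hd : ∀ i j, ∀ x ∈ B.C.U i ∩ B.C.U j, (B.g i j x).det = 1) : HasDegree B 0 := by
  choose κ hκ using hC.2.1
  refine ⟨fun _ _ => 1, κ, hκ, ?_, ?_, ?_⟩
  · intro i e _ z _
    exact ⟨(BA_mo 1 one_ne_zero z).1, (BA_mo 1 one_ne_zero z).2.1⟩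
  · intro i j x hx
    rw [hd i j x hx]
    ring
  · symm
    apply finsum_eq_zero_of_forall_eq_zero
    intro x
    exact (BA_mo 1 one_ne_zero _).2.2

variable (D : CD X)

theorem BA_gB_holo (hD : D.Valid) (i j : Bool) (a b : Fin 3) :
    HoloOn (fun x => gB D i j x a b) ((cov D 1).U i ∩ (cov D 1).U j) := by
  have h0 : HoloOn D.ζ (D.U0 ∩ D.U1) := BA_mono _ _ _ hD.holo0 Set.inter_subset_left
  have h1 : HoloOn D.ν (D.U0 ∩ D.U1) := BA_mono _ _ _ hD.holo1 Set.inter_subset_right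
  have h0' : HoloOn D.ζ (D.U1 ∩ D.U0) := BA_mono _ _ _ hD.holo0 Set.inter_subset_right
  have h1' : HoloOn D.ν (D.U1 ∩ D.U0) := BA_mono _ _ _ hD.holo1 Set.inter_subset_left
  cases i <;> cases j
  · exact BA_const _ _
  · show HoloOn (fun x => (diagonal ![D.ζ x, D.ν x, 1] : Matrix (Fin 3) (Fin 3) ℂ) a b) (D.U0 ∩ D.U1)
    fin_cases a <;> fin_cases b
    · exact h0
    · exact BA_const 0 _
    · exact BA_const 0 _
    · exact BA_const 0 _
    · exact h1
    · exact BA_const 0 _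
    · exact BA_const 0 _
    · exact BA_const 0 _
    · exact BA_const 1 _
  · show HoloOn (fun x => (diagonal ![D.ν x, D.ζ x, 1] : Matrix (Fin 3) (Fin 3) ℂ) a b) (D.U1 ∩ D.U0)
    fin_cases a <;> fin_cases b
    · exact h1'
    · exact BA_const 0 _
    · exact BA_const 0 _
    · exact BA_const 0 _
    · exact h0'
    · exact BA_const 0 _
    · exact BA_const 0 _
    · exact BA_const 0 _
    · exact BA_const 1 _
  · exact BA_const _ _

theorem BA_gV_holo (hD : D.Valid) (i j : Bool) (a b : Fin 2) :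
    HoloOn (fun x => gV D i j x a b) ((cov D 1).U i ∩ (cov D 1).U j) := by
  have h0 : HoloOn D.ζ (D.U0 ∩ D.U1) := BA_mono _ _ _ hD.holo0 Set.inter_subset_left
  have h1 : HoloOn D.ν (D.U0 ∩ D.U1) := BA_mono _ _ _ hD.holo1 Set.inter_subset_right
  have h0' : HoloOn D.ζ (D.U1 ∩ D.U0) := BA_mono _ _ _ hD.holo0 Set.inter_subset_right
  have h1' : HoloOn D.ν (D.U1 ∩ D.U0) := BA_mono _ _ _ hD.holo1 Set.inter_subset_left
  cases i <;> cases j
  · exact BA_const _ _
  · show HoloOn (fun x => (diagonal ![D.ζ x, D.ν x] : Matrix (Fin 2) (Fin 2) ℂ) a b) (D.U0 ∩ D.U1)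
    fin_cases a <;> fin_cases b
    · exact h0
    · exact BA_const 0 _
    · exact BA_const 0 _
    · exact h1
  · show HoloOn (fun x => (diagonal ![D.ν x, D.ζ x] : Matrix (Fin 2) (Fin 2) ℂ) a b) (D.U1 ∩ D.U0)
    fin_cases a <;> fin_cases b
    · exact h1'
    · exact BA_const 0 _
    · exact BA_const 0 _
    · exact h0'
  · exact BA_const _ _

theorem BA_gB_mul (hD : D.Valid) (i j k : Bool) (x : X)
    (hx : x ∈ (cov D 1).U i ∩ (cov D 1).U j ∩ (cov D 1).U k) :
    gB D i j x * gB D j k x = gB D i k x := by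
  have hm : ∀ x, x ∈ D.U0 → x ∈ D.U1 → D.ζ x * D.ν x = 1 := fun x h h' => hD.mul x ⟨h, h'⟩
  cases i <;> cases j <;> cases k
  · exact Matrix.one_mul _
  · exact Matrix.one_mul _
  · exact BA_dd3 _ _ (hm x hx.1.1 hx.1.2)
  · exact Matrix.mul_one _
  · exact Matrix.mul_one _
  · exact BA_dd3 _ _ (by rw [mul_comm]; exact hm x hx.1.2 hx.1.1)
  · exact Matrix.one_mul _
  · exact Matrix.one_mul _

theorem BA_gV_mul (hD : D.Valid) (i j k : Bool) (x : X)
    (hx : x ∈ (cov D 1).U i ∩ (cov D 1).U j ∩ (cov D 1).U k) :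
    gV D i j x * gV D j k x = gV D i k x := by
  have hm : ∀ x, x ∈ D.U0 → x ∈ D.U1 → D.ζ x * D.ν x = 1 := fun x h h' => hD.mul x ⟨h, h'⟩
  cases i <;> cases j <;> cases k
  · exact Matrix.one_mul _
  · exact Matrix.one_mul _
  · exact BA_dd2 _ _ (hm x hx.1.1 hx.1.2)
  · exact Matrix.mul_one _
  · exact Matrix.mul_one _
  · exact BA_dd2 _ _ (by rw [mul_comm]; exact hm x hx.1.2 hx.1.1)
  · exact Matrix.one_mul _
  · exact Matrix.one_mul _

theorem BA_detB (hD : D.Valid) (i j : Bool) (x : X)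
    (hx : x ∈ (cov D 1).U i ∩ (cov D 1).U j) : (gB D i j x).det = 1 := by
  cases i <;> cases j
  · exact Matrix.det_one
  · show (diagonal ![D.ζ x, D.ν x, 1] : Matrix (Fin 3) (Fin 3) ℂ).det = 1
    rw [Matrix.det_diagonal, Fin.prod_univ_three]
    show D.ζ x * D.ν x * 1 = 1
    rw [hD.mul x hx, mul_one]
  · show (diagonal ![D.ν x, D.ζ x, 1] : Matrix (Fin 3) (Fin 3) ℂ).det = 1
    rw [Matrix.det_diagonal, Fin.prod_univ_three]
    show D.ν x * D.ζ x * 1 = 1
    rw [mul_comm (D.ν x), hD.mul x ⟨hx.2, hx.1⟩, mul_one]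
  · exact Matrix.det_one

theorem BA_detV (hD : D.Valid) (i j : Bool) (x : X)
    (hx : x ∈ (cov D 1).U i ∩ (cov D 1).U j) : (gV D i j x).det = 1 := by
  cases i <;> cases j
  · exact Matrix.det_one
  · show (diagonal ![D.ζ x, D.ν x] : Matrix (Fin 2) (Fin 2) ℂ).det = 1
    rw [Matrix.det_diagonal, Fin.prod_univ_two]
    exact hD.mul x hx
  · show (diagonal ![D.ν x, D.ζ x] : Matrix (Fin 2) (Fin 2) ℂ).det = 1
    rw [Matrix.det_diagonal, Fin.prod_univ_two]
    show D.ν x * D.ζ x = 1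
    rw [mul_comm (D.ν x), hD.mul x ⟨hx.2, hx.1⟩]
  · exact Matrix.det_one

theorem BA (hGA : GA_stmt) (hEX : EX_stmt) : BA_stmt := by
  intro X _ _ D hD a t ha ht
  obtain ⟨hC, -, -, hs, hq, -, -, hrat, hrat1, -, -, -⟩ := hEX X D hD a t ha ht
  have hSh : ∀ i, HoloOn (quo (sF D a t) ((cov D a).η i) 1) ((cov D a).U i) :=
    fun i => BA_holoq hGA (cov D a) hC _ 1 hs i
  have hQh : ∀ i, HoloOn (quo (qF D a t) ((cov D a).η i) 2) ((cov D a).U i) :=
    fun i => BA_holoq hGA (cov D a) hC _ 2 hq i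
  have hSr : ∀ i j, ∀ x ∈ (cov D a).U i ∩ (cov D a).U j,
      quo (sF D a t) ((cov D a).η i) 1 x =
        (cov D a).rat i j x * quo (sF D a t) ((cov D a).η j) 1 x := by
    intro i j x hx
    have := BA_quo (cov D a) hC (sF D a t) 1 i j x hx.1 hx.2
    rwa [pow_one] at this
  have hQr : ∀ i j, ∀ x ∈ (cov D a).U i ∩ (cov D a).U j,
      quo (qF D a t) ((cov D a).η i) 2 x =
        (cov D a).rat i j x ^ 2 * quo (qF D a t) ((cov D a).η j) 2 x :=
    fun i j x hx => BA_quo (cov D a) hC (qF D a t) 2 i j x hx.1 hx.2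
  have hBV : (BV D a t).Valid := by
    refine ⟨hC, fun i j a' b' => BA_gV_holo D hD i j a' b', ?_,
      fun i j k x hx => BA_gV_mul D hD i j k x hx, ?_, ?_⟩
    · intro i x _
      cases i <;> rfl
    · intro i a' b'
      fin_cases a' <;> fin_cases b'
      · exact hSh i
      · exact hQh i
      · exact BA_const 1 _
      · exact hSh i
    · intro i j x hx
      have e1 := hSr i j x hx
      have e2 := hQr i j x hx
      cases i <;> cases j
      · have h1 := hrat1 false x hx.1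
        show _ * (1 : Matrix (Fin 2) (Fin 2) ℂ) = (cov D a).rat false false x • (1 * _)
        rw [h1, Matrix.mul_one, Matrix.one_mul, one_smul]
      · have h1 := (hrat x hx).1
        rw [h1] at e1 e2
        have := BA_mat2 (D.ζ x) (D.ν x) _ _ _ _ (hD.mul x hx) e1 e2
        show _ = (cov D a).rat false true x • _
        rw [h1]
        exact this
      · have h1 := (hrat x ⟨hx.2, hx.1⟩).2
        rw [h1] at e1 e2
        have := BA_mat2 (D.ν x) (D.ζ x) _ _ _ _
          (by rw [mul_comm]; exact hD.mul x ⟨hx.2, hx.1⟩) e1 e2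
        show _ = (cov D a).rat true false x • _
        rw [h1]
        exact this
      · have h1 := hrat1 true x hx.1
        show _ * (1 : Matrix (Fin 2) (Fin 2) ℂ) = (cov D a).rat true true x • (1 * _)
        rw [h1, Matrix.mul_one, Matrix.one_mul, one_smul]
  have hBB : (BB D a t).Valid := by
    refine ⟨hC, fun i j a' b' => BA_gB_holo D hD i j a' b', ?_,
      fun i j k x hx => BA_gB_mul D hD i j k x hx, ?_, ?_⟩
    · intro i x _
      cases i <;> rfl
    · intro i a' b'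
      fin_cases a' <;> fin_cases b'
      · exact hSh i
      · exact hQh i
      · exact BA_const 0 _
      · exact BA_const 1 _
      · exact hSh i
      · exact BA_const 0 _
      · exact BA_const 0 _
      · exact BA_const 0 _
      · exact BA_cmul (-2) _ _ (hSh i)
    · intro i j x hx
      have e1 := hSr i j x hx
      have e2 := hQr i j x hx
      cases i <;> cases j
      · have h1 := hrat1 false x hx.1
        show _ * (1 : Matrix (Fin 3) (Fin 3) ℂ) = (cov D a).rat false false x • (1 * _)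
        rw [h1, Matrix.mul_one, Matrix.one_mul, one_smul]
      · have h1 := (hrat x hx).1
        rw [h1] at e1 e2
        have := BA_mat3 (D.ζ x) (D.ν x) _ _ _ _ (hD.mul x hx) e1 e2
        show _ = (cov D a).rat false true x • _
        rw [h1]
        exact this
      · have h1 := (hrat x ⟨hx.2, hx.1⟩).2
        rw [h1] at e1 e2
        have := BA_mat3 (D.ν x) (D.ζ x) _ _ _ _
          (by rw [mul_comm]; exact hD.mul x ⟨hx.2, hx.1⟩) e1 e2
        show _ = (cov D a).rat true false x • _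
        rw [h1]
        exact this
      · have h1 := hrat1 true x hx.1
        show _ * (1 : Matrix (Fin 3) (Fin 3) ℂ) = (cov D a).rat true true x • (1 * _)
        rw [h1, Matrix.mul_one, Matrix.one_mul, one_smul]
  have hBO : (BO D a t).Valid := by
    refine ⟨hC, fun i j a' b' => BA_const _ _, fun i x _ => rfl,
      fun i j k x _ => Matrix.mul_one _, ?_, ?_⟩
    · intro i a' b'
      fin_cases a'
      fin_cases b'
      exact BA_cmul (-2) _ _ (hSh i)
    · intro i j x hx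
      have e1 := hSr i j x hx
      show !![-2 * quo (sF D a t) ((cov D a).η i) 1 x] * (1 : Matrix (Fin 1) (Fin 1) ℂ) =
        (cov D a).rat i j x • ((1 : Matrix (Fin 1) (Fin 1) ℂ) *
          !![-2 * quo (sF D a t) ((cov D a).η j) 1 x])
      rw [Matrix.mul_one, Matrix.one_mul, e1]
      ext a' b'
      fin_cases a'
      fin_cases b'
      simp
      ring
  refine ⟨hBB, ⟨fun i j x hx => BA_detB D hD i j x hx, ?_⟩, hBV, hBO,
    BA_deg _ hC (fun i j x hx => BA_detV D hD i j x hx),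
    BA_deg _ hC (fun i j x _ => Matrix.det_one)⟩
  intro i x _
  rw [Matrix.trace_fin_three]
  show quo (sF D a t) ((cov D a).η i) 1 x + quo (sF D a t) ((cov D a).η i) 1 x +
    -2 * quo (sF D a t) ((cov D a).η i) 1 x = 0
  ring

end

end Pool.Agent.DL
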