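import Pool.Agent.helper67.DL.SpecG

set_option autoImplicit false

namespace Pool.Agent.DL

open Matrix Complex
open scoped ComplexOrder Manifold ContDiff

/-- the projection on the third coordinate -/
def BX_P : Matrix (Fin 3) (Fin 3) ℂ := !![0, 0, 0; 0, 0, 0; 0, 0, 1]

theorem BX_PP : BX_P * BX_P = BX_P := by
  ext a b
  fin_cases a <;> fin_cases b <;> simp [BX_P, Matrix.mul_apply, Fin.sum_univ_three]

theorem BX_PH : BX_Pᴴ = BX_P := by
  ext a b
  fin_cases a <;> fin_cases b <;> simp [BX_P, Matrix.conjTranspose_apply]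

theorem BX_tr : trace BX_P = 1 := by
  rw [Matrix.trace_fin_three]
  simp [BX_P]

theorem BX_commA (s q : ℂ) : BX_P * !![s, q, 0; 1, s, 0; 0, 0, -2 * s] =
    !![s, q, 0; 1, s, 0; 0, 0, -2 * s] * BX_P := by
  ext a b
  fin_cases a <;> fin_cases b <;> simp [BX_P, Matrix.mul_apply, Fin.sum_univ_three]

theorem BX_commD (u v w : ℂ) : (diagonal ![u, v, w] : Matrix (Fin 3) (Fin 3) ℂ) * BX_P =
    BX_P * diagonal ![u, v, w] := by
  ext a b
  fin_cases a <;> fin_cases b <;>
    simp [BX_P, Matrix.mul_apply, Fin.sum_univ_three, Matrix.diagonal]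

/-- an idempotent of trace one commuting with the singular Higgs field -/
theorem BX_alg (R : Matrix (Fin 3) (Fin 3) ℂ) (s : ℂ) (hs : s ≠ 0)
    (hc : R * !![s, 0, 0; 1, s, 0; 0, 0, -2 * s] = !![s, 0, 0; 1, s, 0; 0, 0, -2 * s] * R)
    (hR : R * R = R) (htr : trace R = 1) : R = BX_P := by
  have h := fun a b => congrFun (congrFun hc a) b
  have g := fun a b => congrFun (congrFun hR a) b
  rw [Matrix.trace_fin_three] at htr
  have h00 := h 0 0
  have h02 := h 0 2
  have h10 := h 1 0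
  have h12 := h 1 2
  have h20 := h 2 0
  have h21 := h 2 1
  have g00 := g 0 0
  have g10 := g 1 0
  have g22 := g 2 2
  simp only [Matrix.mul_apply, Fin.sum_univ_three, Matrix.of_apply, Matrix.cons_val', Matrix.cons_val_zero,
    Matrix.cons_val_one, Matrix.cons_val] at h00 h02 h10 h12 h20 h21 g00 g10 g22
  have r01 : R 0 1 = 0 := by linear_combination h00
  have r02 : R 0 2 = 0 := by
    have : 3 * s * R 0 2 = 0 := by linear_combination -h02
    have h3 : (3 : ℂ) * s ≠ 0 := mul_ne_zero (by norm_num) hs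
    exact (mul_eq_zero.mp this).resolve_left h3
  have r11 : R 1 1 = R 0 0 := by linear_combination h10
  have r12 : R 1 2 = 0 := by
    have : 3 * s * R 1 2 = 0 := by linear_combination -h12 - r02
    have h3 : (3 : ℂ) * s ≠ 0 := mul_ne_zero (by norm_num) hs
    exact (mul_eq_zero.mp this).resolve_left h3
  have r21 : R 2 1 = 0 := by
    have : 3 * s * R 2 1 = 0 := by linear_combination h21
    have h3 : (3 : ℂ) * s ≠ 0 := mul_ne_zero (by norm_num) hs
    exact (mul_eq_zero.mp this).resolve_left h3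
  have r20 : R 2 0 = 0 := by
    have : 3 * s * R 2 0 = 0 := by linear_combination h20 - r21
    have h3 : (3 : ℂ) * s ≠ 0 := mul_ne_zero (by norm_num) hs
    exact (mul_eq_zero.mp this).resolve_left h3
  rw [r01, r02, r20] at g00
  rw [r11, r12, r20] at g10
  rw [r02, r12, r20, r21] at g22
  rw [r11] at htr
  have hα : R 0 0 * (R 0 0 - 1) = 0 := by linear_combination g00
  have hγ : R 2 2 = 1 - 2 * R 0 0 := by linear_combination htr
  have hα0 : R 0 0 = 0 := by
    rcases mul_eq_zero.mp hα with h1 | h1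
    · exact h1
    · exfalso
      have h2 : R 0 0 = 1 := by linear_combination h1
      rw [hγ, h2] at g22
      norm_num at g22
  have r10 : R 1 0 = 0 := by rw [hα0] at g10; linear_combination -g10
  have r22 : R 2 2 = 1 := by rw [hγ, hα0]; ring
  ext a b
  fin_cases a <;> fin_cases b <;> simp [BX_P, hα0, r01, r02, r10, r11, r12, r20, r21, r22]

theorem BX_adj (H A : Matrix (Fin 3) (Fin 3) ℂ) (hH : H.PosDef)
    (hc : BX_P * adj H A = adj H A * BX_P) : adj H BX_P * A = A * adj H BX_P := by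
  have hu : IsUnit H.det := isUnit_iff_ne_zero.mpr (Matrix.PosDef.det_pos hH).ne'
  have hHH : Hᴴ = H := hH.isHermitian
  have h1 := congrArg (fun M => H⁻¹ * Mᴴ * H) hc
  simp only [adj] at h1 ⊢
  rw [Matrix.conjTranspose_mul, Matrix.conjTranspose_mul, Matrix.conjTranspose_mul,
    Matrix.conjTranspose_mul, Matrix.conjTranspose_mul, Matrix.conjTranspose_mul,
    Matrix.conjTranspose_nonsing_inv, hHH, Matrix.conjTranspose_conjTranspose, BX_PH] at h1
  rw [BX_PH]
  have hi : H⁻¹ * H = 1 := Matrix.nonsing_inv_mul H hu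
  have e1 : H⁻¹ * (H * (A * H⁻¹) * BX_P) * H = A * (H⁻¹ * BX_P * H) := by
    calc H⁻¹ * (H * (A * H⁻¹) * BX_P) * H = (H⁻¹ * H) * A * (H⁻¹ * BX_P * H) := by
          simp only [Matrix.mul_assoc]
      _ = _ := by rw [hi, Matrix.one_mul]
  have e2 : H⁻¹ * (BX_P * (H * (A * H⁻¹))) * H = H⁻¹ * BX_P * H * A := by
    calc H⁻¹ * (BX_P * (H * (A * H⁻¹))) * H = H⁻¹ * BX_P * H * A * (H⁻¹ * H) := by
          simp only [Matrix.mul_assoc]
      _ = _ := by rw [hi, Matrix.mul_one]
  rw [e1, e2] at h1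
  exact h1.symm

theorem BX_adjP (H : Matrix (Fin 3) (Fin 3) ℂ) (hH : H.PosDef) :
    adj H BX_P * adj H BX_P = adj H BX_P ∧ trace (adj H BX_P) = 1 := by
  have hu : IsUnit H.det := isUnit_iff_ne_zero.mpr (Matrix.PosDef.det_pos hH).ne'
  have hi : H * H⁻¹ = 1 := Matrix.mul_nonsing_inv H hu
  unfold adj
  rw [BX_PH]
  constructor
  · calc H⁻¹ * BX_P * H * (H⁻¹ * BX_P * H) = H⁻¹ * BX_P * (H * H⁻¹) * BX_P * H := by
          simp only [Matrix.mul_assoc]
      _ = H⁻¹ * (BX_P * BX_P) * H := by rw [hi]; simp only [Matrix.mul_assoc, Matrix.one_mul]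
      _ = _ := by rw [BX_PP]
  · rw [Matrix.trace_mul_comm, ← Matrix.mul_assoc, hi, Matrix.one_mul, BX_tr]

theorem BX_nn (H P : Matrix (Fin 3) (Fin 3) ℂ) : nn H P = (trace (adj H P * P)).re := rfl

/-- norm one implies orthogonality -/
theorem BX_orth (hMN : MN_stmt) (H : Matrix (Fin 3) (Fin 3) ℂ) (hH : H.PosDef)
    (h1 : nn H BX_P = 1) : H 0 2 = 0 ∧ H 1 2 = 0 ∧ H 2 0 = 0 ∧ H 2 1 = 0 := by
  have hu : IsUnit H.det := isUnit_iff_ne_zero.mpr (Matrix.PosDef.det_pos hH).ne'
  have hHH : Hᴴ = H := hH.isHermitian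
  obtain ⟨hR, htr⟩ := BX_adjP H hH
  set R := adj H BX_P with hRdef
  have hRR : adj H R = BX_P := by
    have hi : H⁻¹ * H = 1 := Matrix.nonsing_inv_mul H hu
    rw [hRdef]
    unfold adj
    rw [BX_PH, Matrix.conjTranspose_mul, Matrix.conjTranspose_mul,
      Matrix.conjTranspose_nonsing_inv, hHH, BX_PH]
    calc H⁻¹ * (H * (BX_P * H⁻¹)) * H = (H⁻¹ * H) * BX_P * (H⁻¹ * H) := by
          simp only [Matrix.mul_assoc]
      _ = _ := by rw [hi, Matrix.one_mul, Matrix.mul_one]
  have hadjsub : adj H (BX_P - R) = R - BX_P := by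
    have : adj H (BX_P - R) = adj H BX_P - adj H R := by
      unfold adj
      rw [Matrix.conjTranspose_sub, Matrix.mul_sub, Matrix.sub_mul]
    rw [this, hRR]
  have hz : nn H (BX_P - R) = 0 := by
    rw [BX_nn, hadjsub]
    have e : (R - BX_P) * (BX_P - R) = R * BX_P - R * R - BX_P * BX_P + BX_P * R := by
      rw [Matrix.sub_mul, Matrix.mul_sub, Matrix.mul_sub]
      abel
    rw [e, hR, BX_PP, Matrix.trace_add, Matrix.trace_sub, Matrix.trace_sub, htr, BX_tr,
      Matrix.trace_mul_comm BX_P R]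
    have h2 : (trace (R * BX_P)).re = 1 := by rw [← h1, BX_nn]
    simp only [Complex.add_re, Complex.sub_re, Complex.one_re, h2]
    norm_num
  have hPR : BX_P - R = 0 := ((hMN 3 H hH).2.1) _ hz
  have hPR2 : H * BX_P = BX_P * H := by
    have h3 : R = BX_P := (sub_eq_zero.mp hPR).symm
    have h4 : H * R = BX_P * H := by
      rw [hRdef]
      unfold adj
      rw [BX_PH, ← Matrix.mul_assoc, ← Matrix.mul_assoc, Matrix.mul_nonsing_inv H hu,
        Matrix.one_mul]
    rw [← h4, h3]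
  have g := fun a b => congrFun (congrFun hPR2 a) b
  have g02 := g 0 2
  have g12 := g 1 2
  have g20 := g 2 0
  have g21 := g 2 1
  simp [BX_P, Matrix.mul_apply, Fin.sum_univ_three] at g02 g12 g20 g21
  exact ⟨g02, g12, g20.symm ▸ rfl, g21.symm ▸ rfl⟩

theorem BX (hUP : UP_stmt) (hBA : BA_stmt) (hEX : EX_stmt) (hMN : MN_stmt) : BX_stmt := by
  intro X _ _ D hTop hD a t ha ht H hH
  have ha0 : 0 < a := by linarith
  obtain ⟨hBB, -, -, -, -, -⟩ := hBA X D hD a t ha0 ht
  have hEx := hEX X D hD a t ha0 ht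
  have hpos : ∀ i, ∀ x ∈ (cov D a).U i, (H i x).PosDef := by
    intro i x hx
    have h1 := (hH.1.loc i (chartAt ℂ x) (chart_mem_atlas ℂ x)).pos (chartAt ℂ x x)
      ⟨mem_chart_target ℂ x, by
        show (chartAt ℂ x).symm (chartAt ℂ x x) ∈ (cov D a).U i
        rw [(chartAt ℂ x).left_inv (mem_chart_source ℂ x)]
        exact hx⟩
    simp only [(chartAt ℂ x).left_inv (mem_chart_source ℂ x)] at h1
    exact h1
  obtain ⟨hconst, hcomm⟩ := hUP X hTop 3 (BB D a t) hBB H hH.1 (fun _ _ => BX_P)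
    (fun i a b e he => differentiableOn_const _)
    (by
      intro i j x hx
      cases i <;> cases j
      · show (1 : Matrix (Fin 3) (Fin 3) ℂ) * BX_P = BX_P * 1
        rw [Matrix.one_mul, Matrix.mul_one]
      · exact BX_commD _ _ _
      · exact BX_commD _ _ _
      · show (1 : Matrix (Fin 3) (Fin 3) ℂ) * BX_P = BX_P * 1
        rw [Matrix.one_mul, Matrix.mul_one])
    (fun i x _ => BX_commA _ _)
  -- the special point
  have hball : ((1 / a : ℝ) : ℂ) ∈ Metric.ball (0 : ℂ) (1 / 2) := by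
    rw [mem_ball_zero_iff, Complex.norm_real, Real.norm_eq_abs, abs_of_pos (by positivity)]
    rw [div_lt_div_iff₀ ha0 (by norm_num)]
    linarith
  obtain ⟨hy0, hyz, -, -⟩ := hD.e0z _ hball
  set y := D.e0.symm ((1 / a : ℝ) : ℂ) with hy
  have hquo := hEx.2.2.2.2.2.2.2.2.2.1 y hy0
  have haz : (a : ℂ) * D.ζ y = 1 := by
    rw [hyz]
    push_cast
    have : (a : ℂ) ≠ 0 := by exact_mod_cast ha0.ne'
    field_simp
  rw [haz] at hquo
  have hs : quo (sF D a t) ((cov D a).η false) 1 y = I * t / 3 := by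
    rw [hquo.1]; unfold ss; ring
  have hq : quo (qF D a t) ((cov D a).η false) 2 y = 0 := by
    rw [hquo.2]; unfold qq; ring
  have hA : (BB D a t).A false y = !![I * t / 3, 0, 0; 1, I * t / 3, 0; 0, 0, -2 * (I * t / 3)] := by
    show !![quo (sF D a t) ((cov D a).η false) 1 y, quo (qF D a t) ((cov D a).η false) 2 y, 0;
      1, quo (sF D a t) ((cov D a).η false) 1 y, 0; 0, 0, -2 * quo (sF D a t) ((cov D a).η false) 1 y] = _
    rw [hs, hq]
  have hposy := hpos false y hy0
  have hcy := BX_adj _ _ hposy (hcomm false y hy0)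
  rw [hA] at hcy
  obtain ⟨hRR, htr⟩ := BX_adjP _ hposy
  have hI : I * (t : ℂ) / 3 ≠ 0 := by
    have : (t : ℂ) ≠ 0 := by exact_mod_cast ht.ne'
    exact div_ne_zero (mul_ne_zero I_ne_zero this) (by norm_num)
  have hRP := BX_alg _ _ hI hcy hRR htr
  have hnny : nn (H false y) BX_P = 1 := by
    rw [BX_nn, hRP, BX_PP, BX_tr]
    rfl
  intro i x hx
  apply BX_orth hMN _ (hpos i x hx)
  rw [← hnny]
  exact hconst i false x hx y hy0

end Pool.Agent.DL
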