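import Pool.Agent.helper67.DL.SpecG

set_option autoImplicit false

namespace Pool.Agent.DL

open Matrix Complex
open scoped ComplexOrder Manifold ContDiff

theorem GB : GB_stmt := by
  intro X _ _ U m n p q f hp
  refine ⟨?_, ?_, ?_⟩
  · intro hq
    refine ⟨fun e he => (hp.1 e he).mul (hq.1 e he), fun e he e' he' x hx h1 h2 => ?_⟩
    simp only
    rw [hp.2 e he e' he' x hx h1 h2, hq.2 e he e' he' x hx h1 h2, pow_add]
    ring
  · intro hq
    refine ⟨fun e he => (hp.1 e he).add (hq.1 e he), fun e he e' he' x hx h1 h2 => ?_⟩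
    simp only
    rw [hp.2 e he e' he' x hx h1 h2, hq.2 e he e' he' x hx h1 h2]
    ring
  · intro hf
    refine ⟨fun e he => (hf e he).mul (hp.1 e he), fun e he e' he' x hx h1 h2 => ?_⟩
    simp only
    rw [hp.2 e he e' he' x hx h1 h2]
    ring

end Pool.Agent.DL
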