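import Pool.Agent.helper67.DL.SpecL

set_option autoImplicit false

namespace Pool.Agent.DL

open Matrix Complex
open scoped ComplexOrder

theorem M1_fro (B : Matrix (Fin 3) (Fin 3) ℂ) :
    ((∑ a, ∑ b, ‖B a b‖ ^ 2 : ℝ) : ℂ) = trace (Bᴴ * B) := by
  rw [Matrix.trace]
  simp only [Matrix.diag_apply, Matrix.mul_apply, Matrix.conjTranspose_apply]
  rw [Finset.sum_comm]
  push_cast
  apply Finset.sum_congr rfl
  intro b _
  apply Finset.sum_congr rfl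
  intro a _
  rw [← Complex.conj_mul']
  rfl

theorem M1_fro_unitary (U B : Matrix (Fin 3) (Fin 3) ℂ) (hU : U ∈ unitaryGroup (Fin 3) ℂ) :
    (∑ a, ∑ b, ‖(U * B * Uᴴ) a b‖ ^ 2 : ℝ) = ∑ a, ∑ b, ‖B a b‖ ^ 2 := by
  have h1 : Uᴴ * U = 1 := (Matrix.mem_unitaryGroup_iff').mp hU
  have h2 : ((∑ a, ∑ b, ‖(U * B * Uᴴ) a b‖ ^ 2 : ℝ) : ℂ) = ((∑ a, ∑ b, ‖B a b‖ ^ 2 : ℝ) : ℂ) := by
    rw [M1_fro, M1_fro]
    have h3 : (U * B * Uᴴ)ᴴ * (U * B * Uᴴ) = U * (Bᴴ * B) * Uᴴ := by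
      rw [Matrix.conjTranspose_mul, Matrix.conjTranspose_mul, Matrix.conjTranspose_conjTranspose]
      calc U * (Bᴴ * Uᴴ) * (U * B * Uᴴ) = U * Bᴴ * (Uᴴ * U) * B * Uᴴ := by
            simp only [Matrix.mul_assoc]
        _ = U * (Bᴴ * B) * Uᴴ := by rw [h1]; simp only [Matrix.mul_assoc, Matrix.one_mul]
    rw [h3, Matrix.trace_mul_comm, ← Matrix.mul_assoc, h1, Matrix.one_mul]
  exact_mod_cast h2

theorem M1_sum (l l' : Fin 3 → ℂ)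
    (h : ∏ i, (Polynomial.X - Polynomial.C (l i)) = ∏ i, (Polynomial.X - Polynomial.C (l' i))) :
    ∑ i, ‖l i‖ ^ 2 = ∑ i, ‖l' i‖ ^ 2 := by
  have e : ∀ l : Fin 3 → ℂ, (∏ i, (Polynomial.X - Polynomial.C (l i))).roots =
      Finset.univ.val.map l := by
    intro l
    have h1 : ∏ i, (Polynomial.X - Polynomial.C (l i)) =
        ((Finset.univ.val.map l).map (fun a => Polynomial.X - Polynomial.C a)).prod := by
      rw [Multiset.map_map]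
      rfl
    rw [h1, Polynomial.roots_multiset_prod_X_sub_C]
  have h2 : Finset.univ.val.map l = Finset.univ.val.map l' := by rw [← e, ← e, h]
  have h3 : ∀ l : Fin 3 → ℂ, ∑ i, ‖l i‖ ^ 2 = ((Finset.univ.val.map l).map (fun a => ‖a‖ ^ 2)).sum := by
    intro l
    rw [Multiset.map_map]
    rfl
  rw [h3, h3, h2]

theorem M1_tri (T : Matrix (Fin 3) (Fin 3) ℂ) (hT : ∀ i j : Fin 3, j < i → T i j = 0) :
    (∑ i, ‖T i i‖ ^ 2 ≤ ∑ a, ∑ b, ‖T a b‖ ^ 2) ∧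
    (∑ a, ∑ b, ‖T a b‖ ^ 2 - ∑ i, ‖T i i‖ ^ 2) ^ 2 / 2 ≤
      ∑ a, ∑ b, ‖(T * Tᴴ - Tᴴ * T) a b‖ ^ 2 := by
  have t10 : T 1 0 = 0 := hT 1 0 (by decide)
  have t20 : T 2 0 = 0 := hT 2 0 (by decide)
  have t21 : T 2 1 = 0 := hT 2 1 (by decide)
  set x := ‖T 0 1‖ ^ 2 with hx
  set y := ‖T 0 2‖ ^ 2 with hy
  set z := ‖T 1 2‖ ^ 2 with hz
  have hx0 : 0 ≤ x := by positivity
  have hy0 : 0 ≤ y := by positivity
  have hz0 : 0 ≤ z := by positivity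
  have hsum : ∑ a, ∑ b, ‖T a b‖ ^ 2 = ∑ i, ‖T i i‖ ^ 2 + (x + y + z) := by
    simp only [Fin.sum_univ_three, t10, t20, t21, norm_zero]
    rw [hx, hy, hz]
    ring
  have hsq : ∀ w : ℂ, w * (starRingEnd ℂ) w = ((‖w‖ ^ 2 : ℝ) : ℂ) := by
    intro w; rw [Complex.mul_conj']; push_cast; rfl
  have hsq' : ∀ w : ℂ, (starRingEnd ℂ) w * w = ((‖w‖ ^ 2 : ℝ) : ℂ) := by
    intro w; rw [Complex.conj_mul']; push_cast; rfl
  have d0 : (T * Tᴴ - Tᴴ * T) 0 0 = ((x + y : ℝ) : ℂ) := by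
    simp only [Matrix.sub_apply, Matrix.mul_apply, Matrix.conjTranspose_apply, Fin.sum_univ_three,
      t10, t20]
    simp only [star_def, hsq, hsq']
    rw [hx, hy]
    push_cast
    simp
    ring
  have d2 : (T * Tᴴ - Tᴴ * T) 2 2 = ((-(y + z) : ℝ) : ℂ) := by
    simp only [Matrix.sub_apply, Matrix.mul_apply, Matrix.conjTranspose_apply, Fin.sum_univ_three,
      t20, t21]
    simp only [star_def, hsq, hsq']
    rw [hy, hz]
    push_cast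
    simp
  refine ⟨by rw [hsum]; linarith, ?_⟩
  have hlow : (x + y) ^ 2 + (y + z) ^ 2 ≤ ∑ a, ∑ b, ‖(T * Tᴴ - Tᴴ * T) a b‖ ^ 2 := by
    have e0 : ‖(T * Tᴴ - Tᴴ * T) 0 0‖ ^ 2 = (x + y) ^ 2 := by
      rw [d0, Complex.norm_real, Real.norm_eq_abs, sq_abs]
    have e2 : ‖(T * Tᴴ - Tᴴ * T) 2 2‖ ^ 2 = (y + z) ^ 2 := by
      rw [d2, Complex.norm_real, Real.norm_eq_abs, sq_abs]; ring
    rw [← e0, ← e2]
    generalize T * Tᴴ - Tᴴ * T = M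
    have q0 : ‖M 0 0‖ ^ 2 ≤ ∑ b, ‖M 0 b‖ ^ 2 :=
      Finset.single_le_sum (f := fun b => ‖M 0 b‖ ^ 2) (fun b _ => by positivity) (Finset.mem_univ 0)
    have q2 : ‖M 2 2‖ ^ 2 ≤ ∑ b, ‖M 2 b‖ ^ 2 :=
      Finset.single_le_sum (f := fun b => ‖M 2 b‖ ^ 2) (fun b _ => by positivity) (Finset.mem_univ 2)
    have q1 : 0 ≤ ∑ b, ‖M 1 b‖ ^ 2 := Finset.sum_nonneg fun b _ => by positivity
    rw [Fin.sum_univ_three]
    linarith
  refine le_trans ?_ hlow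
  rw [hsum, add_sub_cancel_left]
  clear_value x y z
  nlinarith [sq_nonneg (x - z), mul_nonneg hx0 hy0, mul_nonneg hy0 hz0, mul_nonneg hx0 hz0]

theorem M1_comm (L L' X Y : Matrix (Fin 3) (Fin 3) ℂ) (h : L' * L = 1) :
    L * (X * Y - Y * X) * L' = (L * X * L') * (L * Y * L') - (L * Y * L') * (L * X * L') := by
  have e : ∀ X Y : Matrix (Fin 3) (Fin 3) ℂ, (L * X * L') * (L * Y * L') = L * (X * Y) * L' := by
    intro X Y
    calc (L * X * L') * (L * Y * L') = L * X * (L' * L) * Y * L' := by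
          simp only [Matrix.mul_assoc]
      _ = _ := by rw [h]; simp only [Matrix.mul_assoc, Matrix.one_mul]
  rw [e, e, Matrix.mul_sub, Matrix.sub_mul]

theorem M1_ct (U B : Matrix (Fin 3) (Fin 3) ℂ) : U * Bᴴ * Uᴴ = (U * B * Uᴴ)ᴴ := by
  rw [Matrix.conjTranspose_mul, Matrix.conjTranspose_mul,
    Matrix.conjTranspose_conjTranspose, Matrix.mul_assoc]

theorem M1 (hMR : MR_stmt) (hMT : MT_stmt) : M1_stmt := by
  intro H A l hH hl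
  obtain ⟨L, hL, -, hnn, hadj⟩ := hMR 3 H hH
  set B := L * A * L⁻¹ with hB
  obtain ⟨U, hU, hT⟩ := hMT B
  set T := U * B * Uᴴ with hTdef
  have hLL : L⁻¹ * L = 1 := Matrix.nonsing_inv_mul L hL
  have h1 : Uᴴ * U = 1 := (Matrix.mem_unitaryGroup_iff').mp hU
  -- the characteristic polynomial
  have hcB : B.charpoly = A.charpoly := by
    rw [hB, Matrix.charpoly_mul_comm, ← Matrix.mul_assoc, hLL, Matrix.one_mul]
  have hcT : T.charpoly = B.charpoly := by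
    rw [hTdef, Matrix.charpoly_mul_comm, ← Matrix.mul_assoc, h1, Matrix.one_mul]
  have hcT2 : T.charpoly = ∏ i, (Polynomial.X - Polynomial.C (T i i)) :=
    Matrix.charpoly_of_upperTriangular T (fun i j h => hT i j h)
  have hsl : ∑ i, ‖l i‖ ^ 2 = ∑ i, ‖T i i‖ ^ 2 := by
    apply M1_sum
    rw [← hl, ← hcB, ← hcT, hcT2]
  have hA : nn H A = ∑ a, ∑ b, ‖T a b‖ ^ 2 := by
    rw [hnn A, ← hB, hTdef, M1_fro_unitary U B hU]
  have hAc : nn H (A * adj H A - adj H A * A) = ∑ a, ∑ b, ‖(T * Tᴴ - Tᴴ * T) a b‖ ^ 2 := by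
    rw [hnn]
    have e1 : L * (A * adj H A - adj H A * A) * L⁻¹ = B * Bᴴ - Bᴴ * B := by
      rw [M1_comm L L⁻¹ A (adj H A) hLL, hadj A]
    rw [e1]
    have e4 : U * Bᴴ * Uᴴ = Tᴴ := M1_ct U B
    have e3 : T * Tᴴ - Tᴴ * T = U * (B * Bᴴ - Bᴴ * B) * Uᴴ := by
      rw [M1_comm U Uᴴ B Bᴴ h1, e4]
    rw [e3, M1_fro_unitary U _ hU]
  obtain ⟨k1, k2⟩ := M1_tri T hT
  rw [hA, hAc, hsl]
  exact ⟨k1, k2⟩

end Pool.Agent.DL
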