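import Pool.Agent.helper67.DL.SpecL

set_option autoImplicit false

namespace Pool.Agent.DL

open Matrix Complex
open scoped ComplexOrder MatrixOrder

theorem MR_fro {n : ℕ} (B : Matrix (Fin n) (Fin n) ℂ) :
    ((∑ a, ∑ b, ‖B a b‖ ^ 2 : ℝ) : ℂ) = trace (Bᴴ * B) := by
  rw [Matrix.trace]
  simp only [Matrix.diag_apply, Matrix.mul_apply, Matrix.conjTranspose_apply]
  rw [Finset.sum_comm]
  push_cast
  apply Finset.sum_congr rfl
  intro b _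
  apply Finset.sum_congr rfl
  intro a _
  rw [← Complex.conj_mul']
  rfl

theorem MR : MR_stmt := by
  intro n H hH
  obtain ⟨L, hL⟩ := CStarAlgebra.nonneg_iff_eq_star_mul_self.mp hH.posSemidef.nonneg
  rw [Matrix.star_eq_conjTranspose] at hL
  have hdet : IsUnit L.det := by
    have h1 : H.det ≠ 0 := (Matrix.PosDef.det_pos hH).ne'
    rw [hL, Matrix.det_mul] at h1
    exact isUnit_iff_ne_zero.mpr (right_ne_zero_of_mul h1)
  have hdet' : IsUnit (Lᴴ).det := by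
    rw [Matrix.det_conjTranspose]
    exact hdet.star
  have hinv : H⁻¹ = L⁻¹ * (Lᴴ)⁻¹ := by rw [hL, Matrix.mul_inv_rev]
  have hconj : ∀ P : Matrix (Fin n) (Fin n) ℂ, (L * P * L⁻¹)ᴴ = (Lᴴ)⁻¹ * Pᴴ * Lᴴ := by
    intro P
    rw [Matrix.conjTranspose_mul, Matrix.conjTranspose_mul, Matrix.conjTranspose_nonsing_inv,
      ← Matrix.mul_assoc]
  refine ⟨L, hdet, hL, ?_, ?_⟩
  · intro P
    have h2 : trace (H⁻¹ * Pᴴ * H * P) = ((∑ a, ∑ b, ‖(L * P * L⁻¹) a b‖ ^ 2 : ℝ) : ℂ) := by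
      rw [MR_fro, hconj, hinv, hL]
      have h3 : L⁻¹ * (Lᴴ)⁻¹ * Pᴴ * (Lᴴ * L) * P = L⁻¹ * ((Lᴴ)⁻¹ * Pᴴ * Lᴴ * (L * P)) := by
        simp only [Matrix.mul_assoc]
      rw [h3, Matrix.trace_mul_comm]
      simp only [Matrix.mul_assoc]
    unfold nn nn2
    rw [h2, Complex.ofReal_re]
  · intro P
    rw [hconj]
    unfold adj
    rw [hinv, hL]
    calc L * (L⁻¹ * (Lᴴ)⁻¹ * Pᴴ * (Lᴴ * L)) * L⁻¹
        = (L * L⁻¹) * ((Lᴴ)⁻¹ * Pᴴ * Lᴴ) * (L * L⁻¹) := by simp only [Matrix.mul_assoc]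
      _ = _ := by rw [Matrix.mul_nonsing_inv L hdet, Matrix.one_mul, Matrix.mul_one]

end Pool.Agent.DL
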